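import Mathlib
import Pool.Agent.P8H67.IU.Stm

/-!
Project IU, part GNM: the norm of Gauss of `h - b` on a disc, and the number of roots in a disc.
-/

set_option autoImplicit false

namespace Pool.Agent.P8H78.IU

open Polynomial Finset Pool.Agent.P8H67.IU

universe u

section gauss

variable {L : Type u} [NormedField L]

/-- the absolute value of the field -/
noncomputable abbrev vv (L : Type u) [NormedField L] : AbsoluteValue L ℝ := NormedField.toAbsoluteValue L

theorem vv_na [IsUltrametricDist L] : IsNonarchimedean (vv L) := fun x y => IsUltrametricDist.norm_add_le_max x y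

theorem vv_apply (x : L) : vv L x = ‖x‖ := rfl

theorem gauss_le (g : L[X]) (ρ B : ℝ) (h : ∀ i, ‖g.coeff i‖ * ρ ^ i ≤ B) : gaussNorm (vv L) ρ g ≤ B := by
  obtain ⟨i, hi⟩ := exists_eq_gaussNorm (vv L) ρ g
  rw [hi]
  exact h i

theorem gauss_lin (a : L) (ρ : ℝ) (hρ : 0 < ρ) : gaussNorm (vv L) ρ (X + C a) = max ρ ‖a‖ := by
  apply le_antisymm
  · apply gauss_le
    intro i
    rcases i with _ | _ | i
    · simp
    · simp
    · have : (X + C a : L[X]).coeff (i + 1 + 1) = 0 := by
        rw [coeff_add, coeff_X, coeff_C]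
        simp
      rw [this]
      simp only [norm_zero, zero_mul]
      exact le_max_of_le_left hρ.le
  · apply max_le
    · have := le_gaussNorm (vv L) (X + C a) hρ.le 1
      simpa [vv_apply, coeff_C] using this
    · have := le_gaussNorm (vv L) (X + C a) hρ.le 0
      simpa [vv_apply] using this

theorem gauss_sub_C (g : L[X]) (hg : g.coeff 0 = 0) (b : L) (ρ : ℝ) (hρ : 0 < ρ) :
    gaussNorm (vv L) ρ (g - C b) = max (gaussNorm (vv L) ρ g) ‖b‖ := by
  have hc : ∀ i, i ≠ 0 → (g - C b).coeff i = g.coeff i := by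
    intro i hi
    rw [coeff_sub, coeff_C, if_neg hi, sub_zero]
  apply le_antisymm
  · apply gauss_le
    intro i
    by_cases hi : i = 0
    · subst hi
      rw [coeff_sub, hg, coeff_C_zero, zero_sub, norm_neg, pow_zero, mul_one]
      exact le_max_right _ _
    · rw [hc i hi]
      exact (le_gaussNorm (vv L) g hρ.le i).trans (le_max_left _ _)
  · apply max_le
    · apply gauss_le
      intro i
      by_cases hi : i = 0
      · subst hi
        rw [hg, norm_zero, zero_mul]
        exact gaussNorm_nonneg _ _ hρ.le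
      · rw [← hc i hi]
        exact le_gaussNorm (vv L) (g - C b) hρ.le i
    · have := le_gaussNorm (vv L) (g - C b) hρ.le 0
      rw [coeff_sub, hg, coeff_C_zero, zero_sub, pow_zero, mul_one, vv_apply, norm_neg] at this
      exact this

variable [IsUltrametricDist L]

/-- the norm of Gauss as a homomorphism -/
noncomputable def gh (ρ : ℝ) (hρ : 0 < ρ) : L[X] →* ℝ where
  toFun g := gaussNorm (vv L) ρ g
  map_one' := by
    rw [← C_1, gaussNorm_C, map_one]
  map_mul' p q := gaussNorm_mul vv_na hρ p q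

theorem GN_eq [IsAlgClosed L] (h : L[X]) (hm : h.Monic) (c : L) (ρ : ℝ) (hρ : 0 < ρ) :
    GN h c ρ = gaussNorm (vv L) ρ (h.comp (X + C c)) := by
  have h1 : h = (h.roots.map (fun a => X - C a)).prod := (IsAlgClosed.splits h).eq_prod_roots_of_monic hm
  have h2 : h.comp (X + C c) = (h.roots.map (fun a => X + C (c - a))).prod := by
    conv_lhs => rw [h1]
    rw [multiset_prod_comp, Multiset.map_map]
    congr 1
    apply Multiset.map_congr rfl
    intro a _
    simp only [Function.comp, sub_comp, X_comp, C_comp, C_sub]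
    ring
  rw [h2]
  have h3 : gaussNorm (vv L) ρ ((h.roots.map (fun a => X + C (c - a))).prod) =
      gh ρ hρ ((h.roots.map (fun a => X + C (c - a))).prod) := rfl
  rw [h3, map_multiset_prod, Multiset.map_map]
  unfold GN
  congr 1
  apply Multiset.map_congr rfl
  intro a _
  exact (gauss_lin (c - a) ρ hρ).symm

omit [IsUltrametricDist L] in
theorem monic_sub_C (h : L[X]) (hm : h.Monic) (hd : 1 ≤ h.natDegree) (b : L) : (h - C b).Monic := by
  apply hm.sub_of_left
  exact lt_of_le_of_lt degree_C_le (natDegree_pos_iff_degree_pos.1 hd)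

theorem GN_sub [IsAlgClosed L] (h : L[X]) (hm : h.Monic) (hd : 1 ≤ h.natDegree) (b c : L) (ρ : ℝ) (hρ : 0 < ρ) :
    GN (h - C b) c ρ = max (GN (h - C (h.eval c)) c ρ) ‖b - h.eval c‖ := by
  rw [GN_eq _ (monic_sub_C h hm hd b) c ρ hρ, GN_eq _ (monic_sub_C h hm hd _) c ρ hρ]
  have h1 : (h - C b).comp (X + C c) = (h - C (h.eval c)).comp (X + C c) - C (b - h.eval c) := by
    simp only [sub_comp, C_comp, C_sub]
    ring
  rw [h1]
  apply gauss_sub_C _ _ _ ρ hρ
  rw [coeff_zero_eq_eval_zero, eval_comp]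
  simp

end gauss

section counting

variable {L : Type u} [NormedField L]

theorem exists_gap (s : Multiset L) (c : L) (ρ : ℝ) : ∃ ρ₁, ρ < ρ₁ ∧ ∀ η ∈ s, ‖c - η‖ ≤ ρ ∨ ρ₁ ≤ ‖c - η‖ := by
  induction s using Multiset.induction with
  | empty => exact ⟨ρ + 1, by linarith, by simp⟩
  | cons a s ih =>
    obtain ⟨ρ₁, h1, h2⟩ := ih
    by_cases ha : ‖c - a‖ ≤ ρ
    · refine ⟨ρ₁, h1, ?_⟩
      intro η hη
      rcases Multiset.mem_cons.1 hη with rfl | h
      · exact Or.inl ha
      · exact h2 η h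
    · push Not at ha
      refine ⟨min ρ₁ ‖c - a‖, lt_min h1 ha, ?_⟩
      intro η hη
      rcases Multiset.mem_cons.1 hη with rfl | h
      · exact Or.inr (min_le_right _ _)
      · rcases h2 η h with h3 | h3
        · exact Or.inl h3
        · exact Or.inr ((min_le_left _ _).trans h3)

open scoped Classical in
theorem prod_split (s : Multiset L) (c : L) (ρ ρ₁ : ℝ) (h1 : ρ ≤ ρ₁)
    (h2 : ∀ η ∈ s, ‖c - η‖ ≤ ρ ∨ ρ₁ ≤ ‖c - η‖) :
    (s.map fun η => max ρ₁ ‖c - η‖).prod = ρ₁ ^ (s.filter fun η => ‖c - η‖ ≤ ρ).card *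
      ((s.filter fun η => ¬ ‖c - η‖ ≤ ρ).map fun η => ‖c - η‖).prod := by
  induction s using Multiset.induction with
  | empty => simp
  | cons a s ih =>
    have ih' := ih (fun η hη => h2 η (Multiset.mem_cons_of_mem hη))
    rw [Multiset.map_cons, Multiset.prod_cons, ih']
    by_cases ha : ‖c - a‖ ≤ ρ
    · have e1 : (a ::ₘ s).filter (fun η => ‖c - η‖ ≤ ρ) = a ::ₘ s.filter (fun η => ‖c - η‖ ≤ ρ) :=
        Multiset.filter_cons_of_pos s ha
      have e2 : (a ::ₘ s).filter (fun η => ¬ ‖c - η‖ ≤ ρ) = s.filter (fun η => ¬ ‖c - η‖ ≤ ρ) :=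
        Multiset.filter_cons_of_neg s (not_not.2 ha)
      rw [e1, e2, Multiset.card_cons, max_eq_left (ha.trans h1), pow_succ]
      ring
    · have h3 : ρ₁ ≤ ‖c - a‖ := (h2 a (Multiset.mem_cons_self a s)).resolve_left ha
      have e1 : (a ::ₘ s).filter (fun η => ‖c - η‖ ≤ ρ) = s.filter (fun η => ‖c - η‖ ≤ ρ) :=
        Multiset.filter_cons_of_neg s ha
      have e2 : (a ::ₘ s).filter (fun η => ¬ ‖c - η‖ ≤ ρ) = a ::ₘ s.filter (fun η => ¬ ‖c - η‖ ≤ ρ) :=
        Multiset.filter_cons_of_pos s ha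
      rw [e1, e2, Multiset.map_cons, Multiset.prod_cons, max_eq_right h3]
      ring

open scoped Classical in
theorem prod_far_pos (s : Multiset L) (c : L) (ρ : ℝ) (hρ : 0 < ρ) :
    0 < ((s.filter fun η => ¬ ‖c - η‖ ≤ ρ).map fun η => ‖c - η‖).prod := by
  apply Multiset.prod_pos
  intro x hx
  rw [Multiset.mem_map] at hx
  obtain ⟨η, hη, rfl⟩ := hx
  rw [Multiset.mem_filter] at hη
  linarith [not_le.1 hη.2]

theorem cnt_eq_of_GN (g h : L[X]) (c : L) (ρ : ℝ) (hρ : 0 < ρ) (hgh : ∀ ρ₁, ρ ≤ ρ₁ → GN g c ρ₁ = GN h c ρ₁) :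
    cnt g c ρ = cnt h c ρ := by
  classical
  obtain ⟨ρ₁, h1, h2⟩ := exists_gap (g.roots + h.roots) c ρ
  have hg2 : ∀ η ∈ g.roots, ‖c - η‖ ≤ ρ ∨ ρ₁ ≤ ‖c - η‖ := fun η hη => h2 η (Multiset.mem_add.2 (Or.inl hη))
  have hh2 : ∀ η ∈ h.roots, ‖c - η‖ ≤ ρ ∨ ρ₁ ≤ ‖c - η‖ := fun η hη => h2 η (Multiset.mem_add.2 (Or.inr hη))
  have a1 := prod_split g.roots c ρ ρ₁ h1.le hg2
  have a2 := prod_split h.roots c ρ ρ₁ h1.le hh2
  have a3 := prod_split g.roots c ρ ρ le_rfl (fun η _ => le_total _ _)
  have a4 := prod_split h.roots c ρ ρ le_rfl (fun η _ => le_total _ _)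
  have b1 := prod_far_pos g.roots c ρ hρ
  have b2 := prod_far_pos h.roots c ρ hρ
  have e1 := hgh ρ₁ h1.le
  have e2 := hgh ρ le_rfl
  unfold GN at e1 e2
  rw [a1, a2] at e1
  rw [a3, a4] at e2
  unfold cnt
  set m := (g.roots.filter fun η => ‖c - η‖ ≤ ρ).card
  set n := (h.roots.filter fun η => ‖c - η‖ ≤ ρ).card
  set A := ((g.roots.filter fun η => ¬ ‖c - η‖ ≤ ρ).map fun η => ‖c - η‖).prod
  set B := ((h.roots.filter fun η => ¬ ‖c - η‖ ≤ ρ).map fun η => ‖c - η‖).prod
  have hρ₁ : 0 < ρ₁ := hρ.trans h1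
  have e3 : (ρ₁ / ρ) ^ m = (ρ₁ / ρ) ^ n := by
    rw [div_pow, div_pow, div_eq_div_iff (by positivity) (by positivity)]
    have e4 : A * B * (ρ₁ ^ m * ρ ^ n) = A * B * (ρ₁ ^ n * ρ ^ m) := by
      calc A * B * (ρ₁ ^ m * ρ ^ n) = (ρ₁ ^ m * A) * (ρ ^ n * B) := by ring
        _ = (ρ₁ ^ n * B) * (ρ ^ m * A) := by rw [e1, e2]
        _ = _ := by ring
    exact mul_left_cancel₀ (mul_pos b1 b2).ne' e4
  have h4 : 1 < ρ₁ / ρ := by
    rw [one_lt_div hρ]
    exact h1
  exact pow_right_injective₀ (by positivity) h4.ne' e3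

end counting

theorem gnm : S_GNM.{u} := by
  intro L _ _ _ h hm hd b c ρ hρ
  refine ⟨GN_sub h hm hd b c ρ hρ, ?_, ?_⟩
  · intro hb
    apply cnt_eq_of_GN _ _ c ρ hρ
    intro ρ₁ h1
    rw [GN_sub h hm hd b c ρ₁ (hρ.trans_le h1)]
    apply max_eq_left
    refine hb.trans ?_
    unfold GN
    apply Multiset.prod_map_le_prod_map₀
    · intro η _
      positivity
    · intro η _
      exact max_le_max h1 le_rfl
  · intro hb
    unfold cnt
    rw [Multiset.card_eq_zero, Multiset.filter_eq_nil]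
    intro η hη hη2
    have h0 := monic_sub_C h hm hd b
    have h1 : h.eval η = b := by
      have := (mem_roots h0.ne_zero).1 hη
      rw [IsRoot.def, eval_sub, eval_C] at this
      exact sub_eq_zero.1 this
    have h2 := monic_sub_C h hm hd (h.eval c)
    have h3 : h - C (h.eval c) = ((h - C (h.eval c)).roots.map (fun a => X - C a)).prod :=
      (IsAlgClosed.splits _).eq_prod_roots_of_monic h2
    have h4 : b - h.eval c = ((h - C (h.eval c)).roots.map (fun a => η - a)).prod := by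
      have : (h - C (h.eval c)).eval η = b - h.eval c := by rw [eval_sub, eval_C, h1]
      rw [← this]
      conv_lhs => rw [h3]
      rw [eval_multiset_prod, Multiset.map_map]
      congr 1
      apply Multiset.map_congr rfl
      intro a _
      simp
    have h5 : ‖b - h.eval c‖ ≤ GN (h - C (h.eval c)) c ρ := by
      rw [h4]
      have h6 : ‖((h - C (h.eval c)).roots.map (fun a => η - a)).prod‖ =
          ((h - C (h.eval c)).roots.map (fun a => ‖η - a‖)).prod := by
        have := map_multiset_prod (normHom : L →*₀ ℝ) ((h - C (h.eval c)).roots.map (fun a => η - a))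
        rw [Multiset.map_map] at this
        exact this
      rw [h6]
      unfold GN
      apply Multiset.prod_map_le_prod_map₀
      · intro a _
        positivity
      · intro a _
        have : η - a = (η - c) + (c - a) := by ring
        rw [this]
        refine (IsUltrametricDist.norm_add_le_max _ _).trans (max_le_max ?_ le_rfl)
        rw [norm_sub_rev]
        exact hη2
    linarith

end Pool.Agent.P8H78.IU
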