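import Mathlib
import Pool.Agent.P8H67.IU.Stm

/-!
Project IU, part ITR: iterates and their fibres.
-/

set_option autoImplicit false

namespace Pool.Agent.P8H78.IU

open Polynomial Finset Pool.Agent.P8H67.IU

universe u

theorem it_add {L : Type u} [Field L] (f : L[X]) (l j : ℕ) :
    (f.comp)^[l + j] X = ((f.comp)^[j] X).comp ((f.comp)^[l] X) := by
  induction j with
  | zero => simp
  | succ j ih =>
    rw [← add_assoc, Function.iterate_succ_apply', ih, Function.iterate_succ_apply', comp_assoc]

theorem monic_sub_C' {L : Type u} [Field L] (h : L[X]) (hm : h.Monic) (hd : 1 ≤ h.natDegree) (b : L) :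
    (h - C b).Monic := by
  apply hm.sub_of_left
  exact lt_of_le_of_lt degree_C_le (natDegree_pos_iff_degree_pos.1 hd)

theorem it_facts {L : Type u} [Field L] (f : L[X]) (hm : f.Monic) (hd : 1 ≤ f.natDegree) (n : ℕ) :
    ((f.comp)^[n] X).Monic ∧ ((f.comp)^[n] X).natDegree = f.natDegree ^ n ∧
      ∀ x, ((f.comp)^[n] X).eval x = (fun z => f.eval z)^[n] x := by
  induction n with
  | zero =>
    refine ⟨monic_X, ?_, ?_⟩
    · simp
    · intro x
      simp
  | succ n ih =>
    obtain ⟨h1, h2, h3⟩ := ih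
    rw [Function.iterate_succ_apply']
    refine ⟨?_, ?_, ?_⟩
    · apply hm.comp h1
      rw [h2]
      exact (pow_pos (by omega) n).ne'
    · rw [natDegree_comp, h2, pow_succ]
      ring
    · intro x
      rw [eval_comp, h3, Function.iterate_succ_apply']

theorem itr : S_ITR.{u} := by
  intro L _ _ f hm hd
  refine ⟨it_facts f hm hd, ?_⟩
  intro l j a
  obtain ⟨j1, j2, -⟩ := it_facts f hm hd j
  obtain ⟨l1, l2, -⟩ := it_facts f hm hd l
  have hdj : 1 ≤ ((f.comp)^[j] X).natDegree := by
    rw [j2]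
    exact Nat.one_le_pow _ _ hd
  have hdl : 1 ≤ ((f.comp)^[l] X).natDegree := by
    rw [l2]
    exact Nat.one_le_pow _ _ hd
  have h1 := (IsAlgClosed.splits ((f.comp)^[j] X - C a)).eq_prod_roots_of_monic (monic_sub_C' _ j1 hdj a)
  have h2 : (f.comp)^[l + j] X - C a =
      ((((f.comp)^[j] X - C a).roots).map (fun b => (f.comp)^[l] X - C b)).prod := by
    have h3 : (f.comp)^[l + j] X - C a = ((f.comp)^[j] X - C a).comp ((f.comp)^[l] X) := by
      rw [it_add, sub_comp, C_comp]
    rw [h3]
    conv_lhs => rw [h1]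
    rw [multiset_prod_comp, Multiset.map_map]
    congr 1
    apply Multiset.map_congr rfl
    intro b _
    simp
  rw [h2, roots_multiset_prod, Multiset.bind_map]
  intro h0
  rw [Multiset.mem_map] at h0
  obtain ⟨b, -, hb⟩ := h0
  exact (monic_sub_C' _ l1 hdl b).ne_zero hb

end Pool.Agent.P8H78.IU
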