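import Mathlib
import Pool.Agent.P8H67.IU.Stm

/-!
Project IU, part PATH: the preimages of the disc around a point whose orbit stays in the disc.
-/

set_option autoImplicit false

namespace Pool.Agent.P8H78.IU

open Polynomial Finset Pool.Agent.P8H67.IU

universe u

section multi

variable {α : Type u}

theorem mprod_ge (t : Multiset α) (φ : α → ℝ) (G : ℝ) (hG : 0 ≤ G) (h : ∀ b ∈ t, G ≤ φ b) :
    G ^ t.card ≤ (t.map φ).prod := by
  induction t using Multiset.induction with
  | empty => simp
  | cons a t ih =>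
    have h1 := ih (fun b hb => h b (Multiset.mem_cons_of_mem hb))
    have h2 := h a (Multiset.mem_cons_self a t)
    rw [Multiset.card_cons, Multiset.map_cons, Multiset.prod_cons, pow_succ, mul_comm]
    exact mul_le_mul h2 h1 (by positivity) (hG.trans h2)

theorem mprod_nonneg (t : Multiset α) (φ : α → ℝ) (h : ∀ b ∈ t, 0 ≤ φ b) : 0 ≤ (t.map φ).prod := by
  induction t using Multiset.induction with
  | empty => simp
  | cons a t ih =>
    have h1 := ih (fun b hb => h b (Multiset.mem_cons_of_mem hb))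
    have h2 := h a (Multiset.mem_cons_self a t)
    rw [Multiset.map_cons, Multiset.prod_cons]
    exact mul_nonneg h2 h1

theorem mprod_le (t : Multiset α) (φ : α → ℝ) (B : ℝ) (h0 : ∀ b ∈ t, 0 ≤ φ b) (h : ∀ b ∈ t, φ b ≤ B) :
    (t.map φ).prod ≤ B ^ t.card := by
  induction t using Multiset.induction with
  | empty => simp
  | cons a t ih =>
    have h1 := ih (fun b hb => h0 b (Multiset.mem_cons_of_mem hb)) (fun b hb => h b (Multiset.mem_cons_of_mem hb))
    have h2 := h a (Multiset.mem_cons_self a t)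
    have h3 := h0 a (Multiset.mem_cons_self a t)
    have h4 := mprod_nonneg t φ (fun b hb => h0 b (Multiset.mem_cons_of_mem hb))
    rw [Multiset.card_cons, Multiset.map_cons, Multiset.prod_cons, pow_succ, mul_comm (B ^ t.card)]
    exact mul_le_mul h2 h1 h4 (h3.trans h2)

theorem msum_ge (t : Multiset α) (φ : α → ℕ) (v : ℕ) (h : ∀ b ∈ t, v ≤ φ b) : t.card * v ≤ (t.map φ).sum := by
  induction t using Multiset.induction with
  | empty => simp
  | cons a t ih =>
    have h1 := ih (fun b hb => h b (Multiset.mem_cons_of_mem hb))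
    have h2 := h a (Multiset.mem_cons_self a t)
    rw [Multiset.card_cons, Multiset.map_cons, Multiset.sum_cons, add_mul]
    omega

theorem msum_le (t : Multiset α) (φ : α → ℕ) (v : ℕ) (h : ∀ b ∈ t, φ b ≤ v) : (t.map φ).sum ≤ t.card * v := by
  induction t using Multiset.induction with
  | empty => simp
  | cons a t ih =>
    have h1 := ih (fun b hb => h b (Multiset.mem_cons_of_mem hb))
    have h2 := h a (Multiset.mem_cons_self a t)
    rw [Multiset.card_cons, Multiset.map_cons, Multiset.sum_cons, add_mul]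
    omega

end multi

section basic

variable {L : Type u} [NormedField L]

theorem GN_mono (h : L[X]) (c : L) (ρ ρ' : ℝ) (h0 : 0 ≤ ρ) (h1 : ρ ≤ ρ') : GN h c ρ ≤ GN h c ρ' := by
  unfold GN
  apply Multiset.prod_map_le_prod_map₀
  · intro η _
    positivity
  · intro η _
    exact max_le_max h1 le_rfl

theorem GN_pos (h : L[X]) (c : L) (ρ : ℝ) (h0 : 0 < ρ) : 0 < GN h c ρ := by
  unfold GN
  apply Multiset.prod_pos
  intro x hx
  rw [Multiset.mem_map] at hx
  obtain ⟨η, -, rfl⟩ := hx
  exact lt_max_of_lt_left h0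

theorem GN_ratio (h : L[X]) (c : L) (ρ' ρ : ℝ) (h0 : 0 < ρ') (h1 : ρ' ≤ ρ) :
    GN h c ρ ≤ GN h c ρ' * (ρ / ρ') ^ h.roots.card := by
  have hρ : 0 < ρ := h0.trans_le h1
  unfold GN
  generalize h.roots = s
  induction s using Multiset.induction with
  | empty => simp
  | cons a s ih =>
    rw [Multiset.map_cons, Multiset.map_cons, Multiset.prod_cons, Multiset.prod_cons, Multiset.card_cons, pow_succ]
    have h2 : max ρ ‖c - a‖ ≤ max ρ' ‖c - a‖ * (ρ / ρ') := by
      have h3 : 1 ≤ ρ / ρ' := by
        rw [le_div_iff₀ h0]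
        linarith
      apply max_le
      · calc ρ = ρ' * (ρ / ρ') := by field_simp
          _ ≤ _ := mul_le_mul_of_nonneg_right (le_max_left _ _) (by linarith)
      · calc ‖c - a‖ = ‖c - a‖ * 1 := (mul_one _).symm
          _ ≤ max ρ' ‖c - a‖ * (ρ / ρ') := mul_le_mul (le_max_right _ _) h3 zero_le_one (by positivity)
    have h4 : 0 ≤ (s.map fun η => max ρ ‖c - η‖).prod := mprod_nonneg _ _ (fun b _ => by
      have : 0 ≤ ‖c - b‖ := norm_nonneg _
      exact this.trans (le_max_right _ _))
    calc max ρ ‖c - a‖ * (s.map fun η => max ρ ‖c - η‖).prod ≤ (max ρ' ‖c - a‖ * (ρ / ρ')) *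
          ((s.map fun η => max ρ' ‖c - η‖).prod * (ρ / ρ') ^ s.card) := mul_le_mul h2 ih h4 (by positivity)
      _ = _ := by ring

theorem GN_strict (h : L[X]) (c : L) (ρ ρ' : ℝ) (hc : c ∈ h.roots) (h0 : 0 < ρ) (h1 : ρ < ρ') :
    GN h c ρ < GN h c ρ' := by
  unfold GN
  obtain ⟨t, ht⟩ := Multiset.exists_cons_of_mem hc
  rw [ht, Multiset.map_cons, Multiset.map_cons, Multiset.prod_cons, Multiset.prod_cons, sub_self, norm_zero,
    max_eq_left h0.le, max_eq_left (h0.trans h1).le]
  have h2 : 0 < (t.map fun η => max ρ ‖c - η‖).prod := by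
    apply Multiset.prod_pos
    intro x hx
    rw [Multiset.mem_map] at hx
    obtain ⟨η, -, rfl⟩ := hx
    exact lt_max_of_lt_left h0
  have h3 : (t.map fun η => max ρ ‖c - η‖).prod ≤ (t.map fun η => max ρ' ‖c - η‖).prod := by
    apply Multiset.prod_map_le_prod_map₀
    · intro η _
      positivity
    · intro η _
      exact max_le_max h1.le le_rfl
  exact mul_lt_mul h1 h3 h2 (h0.trans h1).le

theorem GN_cont (h : L[X]) (c : L) : Continuous (fun ρ => GN h c ρ) := by
  unfold GN
  apply continuous_multiset_prod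
  intro η _
  fun_prop

theorem GN_zero (h : L[X]) (c : L) (hc : c ∈ h.roots) : GN h c 0 = 0 := by
  unfold GN
  apply Multiset.prod_eq_zero
  rw [Multiset.mem_map]
  exact ⟨c, hc, by simp⟩

theorem cnt_mono (h : L[X]) (c : L) (ρ ρ' : ℝ) (h1 : ρ ≤ ρ') : cnt h c ρ ≤ cnt h c ρ' := by
  unfold cnt
  apply Multiset.card_le_card
  apply Multiset.monotone_filter_right
  intro η hη
  exact le_trans hη h1

theorem GN_bind [IsAlgClosed L] (hitr : S_ITR.{u}) (f : L[X]) (hm : f.Monic) (hd : 1 ≤ f.natDegree) (l j : ℕ)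
    (a c : L) (ρ : ℝ) :
    GN (it f (l + j) - C a) c ρ = ((it f j - C a).roots.map (fun b => GN (it f l - C b) c ρ)).prod := by
  unfold GN it
  rw [(hitr L f hm hd).2 l j a, Multiset.map_bind, Multiset.prod_bind]

theorem cnt_bind [IsAlgClosed L] (hitr : S_ITR.{u}) (f : L[X]) (hm : f.Monic) (hd : 1 ≤ f.natDegree) (l j : ℕ)
    (a c : L) (ρ : ℝ) :
    cnt (it f (l + j) - C a) c ρ = ((it f j - C a).roots.map (fun b => cnt (it f l - C b) c ρ)).sum := by
  unfold cnt it
  rw [(hitr L f hm hd).2 l j a]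
  generalize ((f.comp)^[j] X - C a).roots = s
  induction s using Multiset.induction with
  | empty => simp
  | cons b s ih =>
    rw [Multiset.cons_bind, Multiset.filter_add, Multiset.card_add, ih, Multiset.map_cons, Multiset.sum_cons]

theorem um_le [IsUltrametricDist L] (a b x₀ : L) (R : ℝ) (ha : ‖a - x₀‖ ≤ R) (hb : ‖b - x₀‖ ≤ R) : ‖a - b‖ ≤ R := by
  have h1 : a - b = (a - x₀) + (x₀ - b) := by ring
  rw [h1]
  refine (IsUltrametricDist.norm_add_le_max _ _).trans (max_le ha ?_)
  rw [norm_sub_rev]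
  exact hb

end basic

theorem path (hgnm : S_GNM.{u}) (hitr : S_ITR.{u}) : S_PATH.{u} := by
  classical
  intro L _ _ _ f p d hm hfd hp hd hmul x₀ R hD hR q₀ hO n
  have hd1 : 1 ≤ f.natDegree := by omega
  have hR0 : 0 < R := by linarith
  obtain ⟨hit, -⟩ := hitr L f hm hd1
  set q : ℕ → L := fun l => (fun z => f.eval z)^[l] q₀ with hq
  have hqD : ∀ l, ‖q l - x₀‖ ≤ R := hO
  have hqs : ∀ l, q (l + 1) = f.eval (q l) := fun l => Function.iterate_succ_apply' _ _ _
  have hqe : ∀ l, (it f l).eval q₀ = q l := fun l => (hit l).2.2 q₀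
  have hmon : ∀ l, (it f l).Monic := fun l => (hit l).1
  have hdeg : ∀ l, (it f l).natDegree = d ^ l := fun l => by rw [← hfd]; exact (hit l).2.1
  have hdeg1 : ∀ l, 1 ≤ (it f l).natDegree := fun l => by
    rw [hdeg]
    exact Nat.one_le_pow _ _ (by omega)
  have hmonC : ∀ l (b : L), (it f l - C b).Monic := fun l b => by
    apply (hmon l).sub_of_left
    exact lt_of_le_of_lt degree_C_le (natDegree_pos_iff_degree_pos.1 (hdeg1 l))
  have hcard : ∀ l (b : L), (it f l - C b).roots.card = d ^ l := fun l b => by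
    rw [← (IsAlgClosed.splits (it f l - C b)).natDegree_eq_card_roots, natDegree_sub_C, hdeg]
  have hroot : ∀ l (a b : L), b ∈ (it f l - C a).roots ↔ (fun z => f.eval z)^[l] b = a := fun l a b => by
    rw [mem_roots (hmonC l a).ne_zero, IsRoot.def, eval_sub, eval_C, sub_eq_zero]
    have : (it f l).eval b = (fun z => f.eval z)^[l] b := (hit l).2.2 b
    rw [this]
  have hit1 : it f 1 = f := by
    unfold it
    simp
  have hDit : ∀ j (b : L), ‖(fun z => f.eval z)^[j] b - x₀‖ ≤ R → ‖b - x₀‖ ≤ R := by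
    intro j
    induction j with
    | zero =>
      intro b h
      simpa using h
    | succ j ih =>
      intro b h
      rw [Function.iterate_succ_apply] at h
      exact hD.inn _ b (ih _ h) rfl
  -- the functions `G l`
  set G : ℕ → ℝ → ℝ := fun l ρ => GN (it f l - C (q l)) q₀ ρ with hG
  have hq0 : ∀ l, q₀ ∈ (it f l - C (q l)).roots := fun l => (hroot l (q l) q₀).2 rfl
  have hgn : ∀ l (b : L) ρ, 0 < ρ → GN (it f l - C b) q₀ ρ = max (G l ρ) ‖b - q l‖ := fun l b ρ hρ => by
    have := (hgnm L (it f l) (hmon l) (hdeg1 l) b q₀ ρ hρ).1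
    rw [hqe l] at this
    exact this
  have hcn : ∀ l (b : L) ρ, 0 < ρ → ‖b - q l‖ ≤ G l ρ → cnt (it f l - C b) q₀ ρ = cnt (it f l - C (q l)) q₀ ρ :=
    fun l b ρ hρ h => by
      have := (hgnm L (it f l) (hmon l) (hdeg1 l) b q₀ ρ hρ).2.1
      rw [hqe l] at this
      exact this h
  have hcz : ∀ l (b : L) ρ, 0 < ρ → G l ρ < ‖b - q l‖ → cnt (it f l - C b) q₀ ρ = 0 :=
    fun l b ρ hρ h => by
      have := (hgnm L (it f l) (hmon l) (hdeg1 l) b q₀ ρ hρ).2.2
      rw [hqe l] at this
      exact this h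
  have hrec : ∀ l ρ, 0 < ρ → G (l + 1) ρ = ((f - C (q (l + 1))).roots.map (fun b => max (G l ρ) ‖b - q l‖)).prod := by
    intro l ρ hρ
    simp only [hG]
    rw [GN_bind hitr f hm hd1 l 1 (q (l + 1)) q₀ ρ, hit1]
    congr 1
    apply Multiset.map_congr rfl
    intro b _
    exact hgn l b ρ hρ
  have hfr : ∀ (a b : L), b ∈ (f - C a).roots ↔ f.eval b = a := fun a b => by
    have := hroot 1 a b
    rw [hit1] at this
    simpa using this
  have hfc : ∀ a : L, (f - C a).roots.card = d := fun a => by
    have := hcard 1 a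
    rw [hit1, pow_one] at this
    exact this
  -- the radii
  have hex : ∀ l, ∃ ρ, 0 < ρ ∧ ρ ≤ R ∧ G l ρ = R := by
    intro l
    have h0 : G l 0 = 0 := GN_zero _ _ (hq0 l)
    have h1 : R ≤ G l R := by
      have h2 : R ^ (it f l - C (q l)).roots.card ≤ G l R := by
        apply mprod_ge _ _ R hR0.le
        intro b _
        exact le_max_left _ _
      rw [hcard] at h2
      refine le_trans ?_ h2
      calc R = R ^ 1 := (pow_one R).symm
        _ ≤ R ^ (d ^ l) := pow_le_pow_right₀ hR.le (Nat.one_le_pow _ _ (by omega))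
    have h2 : R ∈ Set.Icc (G l 0) (G l R) := by
      rw [h0]
      exact ⟨hR0.le, h1⟩
    obtain ⟨ρ, ⟨h3, h4⟩, h5⟩ := intermediate_value_Icc hR0.le (GN_cont (it f l - C (q l)) q₀).continuousOn h2
    refine ⟨ρ, ?_, h4, h5⟩
    rcases h3.lt_or_eq with h6 | h6
    · exact h6
    · exfalso
      rw [← h6] at h5
      have h7 : G l 0 = R := h5
      rw [h0] at h7
      linarith
  choose ρ hρ0 hρR hGρ using hex
  have hlogR : 0 < Real.log R := Real.log_pos hR
  have hd0 : (0 : ℝ) < d := by
    have : 0 < d := by omega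
    exact_mod_cast this
  set V : ℕ → ℕ := fun l => cnt (it f l - C (q l)) q₀ (ρ l) with hV
  refine ⟨fun l => Real.log (ρ l), fun l => (V l : ℝ) / (d : ℝ) ^ l, ?_, ?_, ?_, ?_⟩
  · -- bounds
    intro l _
    refine ⟨?_, Real.log_le_log (hρ0 l) (hρR l)⟩
    by_contra hcon
    push Not at hcon
    have h1 : ρ l < R ^ (-(d : ℤ)) := by
      have h2 : Real.log (ρ l) < Real.log (R ^ (-(d : ℤ))) := by
        rw [Real.log_zpow]
        push_cast
        linarith
      exact (Real.log_lt_log_iff (hρ0 l) (by positivity)).1 h2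
    have h2 : ∀ j, G j (ρ l) < R ^ (-(d : ℤ)) := by
      intro j
      induction j with
      | zero =>
        have h3 : G 0 (ρ l) = ρ l := by
          simp only [hG, GN, hq, it]
          simp [(hρ0 l).le]
        rw [h3]
        exact h1
      | succ j ih =>
        have hGp : 0 < G j (ρ l) := GN_pos _ _ _ (hρ0 l)
        rw [hrec j (ρ l) (hρ0 l)]
        have h3 : p ≤ ((f - C (q (j + 1))).roots).count (q j) := by
          rw [count_roots, le_rootMultiplicity_iff]
          · rw [hqs]
            exact hmul (q j)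
          · have := (hmonC 1 (q (j + 1))).ne_zero
            rw [hit1] at this
            exact this
        rw [Multiset.le_count_iff_replicate_le] at h3
        obtain ⟨t, ht⟩ := Multiset.le_iff_exists_add.1 h3
        have h4 : p + t.card = d := by
          have := hfc (q (j + 1))
          rw [ht, Multiset.card_add, Multiset.card_replicate] at this
          exact this
        rw [ht, Multiset.map_add, Multiset.prod_add, Multiset.map_replicate, Multiset.prod_replicate, sub_self, norm_zero,
          max_eq_left hGp.le]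
        have hRd : R ^ (-(d : ℤ)) ≤ 1 := by
          rw [zpow_neg, zpow_natCast]
          exact inv_le_one_of_one_le₀ (one_le_pow₀ hR.le)
        have h5 : (t.map (fun b => max (G j (ρ l)) ‖b - q j‖)).prod ≤ R ^ t.card := by
          apply mprod_le
          · intro b _
            positivity
          · intro b hb
            apply max_le (by linarith)
            apply um_le _ _ x₀ R _ (hqD j)
            apply hD.inn (q (j + 1)) b (hqD (j + 1))
            rw [← hfr, ht]
            exact Multiset.mem_add.2 (Or.inr hb)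
        have h6 : G j (ρ l) ^ p < (R ^ (-(d : ℤ))) ^ p := pow_lt_pow_left₀ ih hGp.le (by omega)
        calc G j (ρ l) ^ p * (t.map (fun b => max (G j (ρ l)) ‖b - q j‖)).prod ≤ G j (ρ l) ^ p * R ^ t.card :=
              mul_le_mul_of_nonneg_left h5 (by positivity)
          _ < (R ^ (-(d : ℤ))) ^ p * R ^ t.card := mul_lt_mul_of_pos_right h6 (by positivity)
          _ = R ^ (-(d : ℤ) * p + t.card) := by
              rw [← zpow_natCast, ← zpow_mul, ← zpow_natCast, ← zpow_add₀ hR0.ne']
          _ ≤ R ^ (-(d : ℤ)) := by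
              apply zpow_le_zpow_right₀ hR.le
              have h7 : (t.card : ℤ) = d - p := by omega
              rw [h7]
              have h8 : (2 : ℤ) ≤ p := by exact_mod_cast hp
              have h9 : (0 : ℤ) ≤ d := by positivity
              nlinarith
    have h3 := h2 l
    rw [hGρ] at h3
    have h4 : R ^ (-(d : ℤ)) ≤ 1 := by
      rw [zpow_neg, zpow_natCast]
      exact inv_le_one_of_one_le₀ (one_le_pow₀ hR.le)
    linarith
  · -- decay
    intro l _
    have h1 : G (l + 1) (ρ (l + 1)) = R := hGρ (l + 1)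
    have hGp : 0 < G l (ρ (l + 1)) := GN_pos _ _ _ (hρ0 (l + 1))
    have h2 : G l (ρ (l + 1)) ≤ 1 := by
      rw [hrec l _ (hρ0 (l + 1))] at h1
      obtain ⟨b₀, hb1, hb2⟩ := hD.far hR (q (l + 1)) (q l) (hqD _) (hqD _)
      have hb3 : b₀ ∈ (f - C (q (l + 1))).roots := (hfr _ _).2 hb1
      obtain ⟨t, ht⟩ := Multiset.exists_cons_of_mem hb3
      have h4 : t.card + 1 = d := by
        have := hfc (q (l + 1))
        rw [ht, Multiset.card_cons] at this
        exact this
      rw [ht, Multiset.map_cons, Multiset.prod_cons, hb2] at h1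
      have h5 : G l (ρ (l + 1)) ^ t.card ≤ (t.map (fun b => max (G l (ρ (l + 1))) ‖b - q l‖)).prod :=
        mprod_ge _ _ _ hGp.le (fun b _ => le_max_left _ _)
      by_contra hcon
      push Not at hcon
      have h6 : 1 < G l (ρ (l + 1)) ^ t.card := one_lt_pow₀ hcon (by omega)
      have h7 : R * G l (ρ (l + 1)) ^ t.card ≤ R := by
        calc R * G l (ρ (l + 1)) ^ t.card ≤ max (G l (ρ (l + 1))) R *
              (t.map (fun b => max (G l (ρ (l + 1))) ‖b - q l‖)).prod :=
              mul_le_mul (le_max_right _ _) h5 (by positivity) (by positivity)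
          _ = R := h1
      nlinarith
    have h3 : ρ (l + 1) ≤ ρ l := by
      by_contra hcon
      push Not at hcon
      have h4 := GN_mono (it f l - C (q l)) q₀ _ _ (hρ0 l).le hcon.le
      have h5 : G l (ρ l) ≤ G l (ρ (l + 1)) := h4
      rw [hGρ] at h5
      linarith
    have h4 := GN_ratio (it f l - C (q l)) q₀ (ρ (l + 1)) (ρ l) (hρ0 (l + 1)) h3
    have h5 : R ≤ (ρ l / ρ (l + 1)) ^ (d ^ l) := by
      rw [hcard] at h4
      have h6 : G l (ρ l) ≤ G l (ρ (l + 1)) * (ρ l / ρ (l + 1)) ^ (d ^ l) := h4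
      rw [hGρ] at h6
      refine h6.trans ?_
      have h7 : 0 ≤ (ρ l / ρ (l + 1)) ^ (d ^ l) := by
        have := hρ0 l
        have := hρ0 (l + 1)
        positivity
      nlinarith
    have h6 : Real.log R ≤ (d : ℝ) ^ l * (Real.log (ρ l) - Real.log (ρ (l + 1))) := by
      have h7 := Real.log_le_log hR0 h5
      rw [Real.log_pow, Real.log_div (hρ0 l).ne' (hρ0 (l + 1)).ne'] at h7
      push_cast at h7
      exact h7
    have h7 : Real.log R / (d : ℝ) ^ l ≤ Real.log (ρ l) - Real.log (ρ (l + 1)) := by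
      rw [div_le_iff₀ (by positivity)]
      linarith
    show Real.log (ρ (l + 1)) ≤ Real.log (ρ l) - Real.log R / (d : ℝ) ^ l
    linarith
  · -- the weights
    intro l _
    have h1 : 1 ≤ V l := by
      simp only [hV, cnt]
      apply Nat.succ_le_of_lt
      rw [Multiset.card_pos_iff_exists_mem]
      refine ⟨q₀, Multiset.mem_filter.2 ⟨hq0 l, ?_⟩⟩
      rw [sub_self, norm_zero]
      exact (hρ0 l).le
    have h2 : (1 : ℝ) ≤ V l := by exact_mod_cast h1
    show 1 / (d : ℝ) ^ l ≤ (V l : ℝ) / (d : ℝ) ^ l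
    apply div_le_div_of_nonneg_right h2 (by positivity)
  · intro a ha s
    have hbR : ∀ l (b : L), ‖b - x₀‖ ≤ R → ‖b - q l‖ ≤ R := fun l b hb => um_le _ _ x₀ R hb (hqD l)
    have hsame : ∀ l (b : L), ‖b - x₀‖ ≤ R → cnt (it f l - C b) q₀ (ρ l) = V l := by
      intro l b hb
      apply hcn l b (ρ l) (hρ0 l)
      rw [hGρ]
      exact hbR l b hb
    constructor
    · intro l hl hs
      obtain ⟨j, rfl⟩ := Nat.exists_eq_add_of_le hl
      have h1 : ρ l ≤ Real.exp s := by
        have h2 : Real.log (ρ l) ≤ s := hs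
        calc ρ l = Real.exp (Real.log (ρ l)) := (Real.exp_log (hρ0 l)).symm
          _ ≤ Real.exp s := Real.exp_le_exp.2 h2
      have h2 : d ^ j * V l ≤ cnt (it f (l + j) - C a) q₀ (Real.exp s) := by
        rw [cnt_bind hitr f hm hd1, ← hcard j a]
        apply msum_ge
        intro b hb
        have hb2 : ‖b - x₀‖ ≤ R := by
          apply hDit j b
          rw [(hroot j a b).1 hb]
          exact ha
        rw [← hsame l b hb2]
        exact cnt_mono _ _ _ _ h1
      have h3 : ((d : ℝ) ^ j * V l) ≤ cnt (it f (l + j) - C a) q₀ (Real.exp s) := by exact_mod_cast h2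
      calc (V l : ℝ) / (d : ℝ) ^ l * (d : ℝ) ^ (l + j) = (d : ℝ) ^ j * V l := by
            rw [pow_add]
            field_simp
        _ ≤ _ := h3
    · intro l hl hs
      obtain ⟨j, rfl⟩ := Nat.exists_eq_add_of_le (Nat.succ_le_of_lt hl)
      have hs0 : 0 < Real.exp s := Real.exp_pos s
      have h1 : Real.exp s < ρ l := by
        have h2 : s < Real.log (ρ l) := hs
        calc Real.exp s < Real.exp (Real.log (ρ l)) := Real.exp_lt_exp.2 h2
          _ = ρ l := Real.exp_log (hρ0 l)
      have hGs : G l (Real.exp s) < R := by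
        have := GN_strict (it f l - C (q l)) q₀ _ _ (hq0 l) hs0 h1
        calc G l (Real.exp s) < G l (ρ l) := this
          _ = R := hGρ l
      have hone : ∀ b' : L, ‖b' - x₀‖ ≤ R → cnt (it f (l + 1) - C b') q₀ (Real.exp s) ≤ (d - 1) * V l := by
        intro b' hb'
        rw [cnt_bind hitr f hm hd1 l 1, hit1]
        obtain ⟨b₀, hb1, hb2⟩ := hD.far hR b' (q l) hb' (hqD _)
        have hb3 : b₀ ∈ (f - C b').roots := (hfr _ _).2 hb1
        obtain ⟨t, ht⟩ := Multiset.exists_cons_of_mem hb3
        have h4 : t.card = d - 1 := by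
          have := hfc b'
          rw [ht, Multiset.card_cons] at this
          omega
        rw [ht, Multiset.map_cons, Multiset.sum_cons, hcz l b₀ _ hs0 (by rw [hb2]; exact hGs), zero_add, ← h4]
        apply msum_le
        intro b hb
        have hb4 : f.eval b = b' := by
          rw [← hfr, ht]
          exact Multiset.mem_cons_of_mem hb
        have hb5 : ‖b - x₀‖ ≤ R := hD.inn b' b hb' hb4
        rw [← hsame l b hb5]
        exact cnt_mono _ _ _ _ h1.le
      have h2 : cnt (it f (l + 1 + j) - C a) q₀ (Real.exp s) ≤ d ^ j * ((d - 1) * V l) := by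
        rw [cnt_bind hitr f hm hd1 (l + 1) j, ← hcard j a]
        apply msum_le
        intro b hb
        apply hone
        apply hDit j b
        rw [(hroot j a b).1 hb]
        exact ha
      have h3 : (cnt (it f (l + 1 + j) - C a) q₀ (Real.exp s) : ℝ) ≤ (d : ℝ) ^ j * (((d : ℝ) - 1) * V l) := by
        have h4 : (cnt (it f (l + 1 + j) - C a) q₀ (Real.exp s) : ℝ) ≤ ((d ^ j * ((d - 1) * V l) : ℕ) : ℝ) := by
          exact_mod_cast h2
        rw [Nat.cast_mul, Nat.cast_mul, Nat.cast_pow, Nat.cast_sub (by omega : 1 ≤ d), Nat.cast_one] at h4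
        exact h4
      calc (cnt (it f (l + 1 + j) - C a) q₀ (Real.exp s) : ℝ) ≤ (d : ℝ) ^ j * (((d : ℝ) - 1) * V l) := h3
        _ = (1 - 1 / (d : ℝ)) * ((V l : ℝ) / (d : ℝ) ^ l) * (d : ℝ) ^ (l + 1 + j) := by
            rw [pow_add, pow_add]
            field_simp

end Pool.Agent.P8H78.IU
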