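import Mathlib
import Pool.Agent.P8H67.IU.Stm
import Pool.Agent.P8H78.IU.Path

/-!
Project IU, part LBR: an inseparable polynomial contracts.
-/

set_option autoImplicit false

namespace Pool.Agent.P8H78.IU

open Polynomial Finset Pool.Agent.P8H67.IU

universe u

theorem lbr : S_LBR.{u} := by
  classical
  intro L _ _ _ f p d hm hfd hd hmul x₀ R hD x y hx hy
  have hmC : (f - C (f.eval y)).Monic := by
    apply hm.sub_of_left
    exact lt_of_le_of_lt degree_C_le (natDegree_pos_iff_degree_pos.1 (by omega))
  have h3 : p ≤ ((f - C (f.eval y)).roots).count y := by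
    rw [count_roots, le_rootMultiplicity_iff hmC.ne_zero]
    exact hmul y
  rw [Multiset.le_count_iff_replicate_le] at h3
  obtain ⟨t, ht⟩ := Multiset.le_iff_exists_add.1 h3
  have hc : (f - C (f.eval y)).roots.card = d := by
    rw [← (IsAlgClosed.splits (f - C (f.eval y))).natDegree_eq_card_roots, natDegree_sub_C, hfd]
  have h4 : p + t.card = d := by
    rw [ht, Multiset.card_add, Multiset.card_replicate] at hc
    exact hc
  refine ⟨by omega, ?_⟩
  have h5 : f - C (f.eval y) = ((f - C (f.eval y)).roots.map (fun a => X - C a)).prod :=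
    (IsAlgClosed.splits _).eq_prod_roots_of_monic hmC
  have h6 : f.eval x - f.eval y = ((f - C (f.eval y)).roots.map (fun a => x - a)).prod := by
    have h7 : (f - C (f.eval y)).eval x = f.eval x - f.eval y := by rw [eval_sub, eval_C]
    rw [← h7]
    conv_lhs => rw [h5]
    rw [eval_multiset_prod, Multiset.map_map]
    congr 1
    apply Multiset.map_congr rfl
    intro a _
    simp
  have h8 : ‖f.eval x - f.eval y‖ = ((f - C (f.eval y)).roots.map (fun a => ‖x - a‖)).prod := by
    rw [h6]
    have := map_multiset_prod (normHom : L →*₀ ℝ) ((f - C (f.eval y)).roots.map (fun a => x - a))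
    rw [Multiset.map_map] at this
    exact this
  have hroot : ∀ b ∈ t, ‖x - b‖ ≤ R := by
    intro b hb
    apply um_le _ _ x₀ R hx
    apply hD.inn (f.eval y) b hy
    have h9 : b ∈ (f - C (f.eval y)).roots := by
      rw [ht]
      exact Multiset.mem_add.2 (Or.inr hb)
    rw [mem_roots hmC.ne_zero, IsRoot.def, eval_sub, eval_C, sub_eq_zero] at h9
    exact h9
  rw [h8, ht, Multiset.map_add, Multiset.prod_add, Multiset.map_replicate, Multiset.prod_replicate]
  have h10 : d - p = t.card := by omega
  rw [h10]
  apply mul_le_mul_of_nonneg_left _ (by positivity)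
  exact mprod_le _ _ _ (fun b _ => norm_nonneg _) hroot

end Pool.Agent.P8H78.IU
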